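import Pool.Agent.H630DP.Xor
import Pool.Agent.H630DP.T1
import Pool.Agent.H630DP.T2
import Pool.Agent.H630DP.T3
import Pool.Agent.H630DP.T4
import Pool.Agent.H630DP.T7

/-!
# A depth dichotomy for Boolean constraint satisfaction, also with few NOT gates

A Boolean constraint language is a family of relations on `{0,1}`; an instance is a set of
constraints.  Unsatisfiability is a monotone function of the set of constraints.

(A) If the language is finite and closed under one of the operations 0, 1, majority, `x ∧ (y ∨ z)`,
`x ∨ (y ∧ z)`, then unsatisfiability of the instances over `n` variables is computed by formulas of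
AND and OR gates of depth `C * (log n) ^ 2`.

(B) For every other language (finite or not) every circuit of AND and OR gates that decides
satisfiability over `N` variables and has `a * log2 N` NOT gates, `a < 1`, has depth larger than
`N ^ c`, whatever its size; more generally computations that evaluate in rounds AND/OR formulas of
depth at most `N ^ c` and depend on the answers in an arbitrary way need rounds with
`∏ (w + 1) > N ^ a`, `w` the number of formulas of the round.  Here `c` is any positive number smaller
than `(1 - a) / 52`, and `N` has to be larger than a number that depends only on `a` and `c`.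

Languages of the second kind are those of Horn-SAT, of linear equations over the field with two
elements, and all NP-complete ones.

Proof of (B): Languages that are not closed under one of 0, 1, AND, OR, majority express linear
equations; for them the random walk of `MP_d26a53_lc.SchaeferDichotomy` works for computations in
rounds, too (`Xor`).  In the other cases all polymorphisms are conjunctions (or all are disjunctions)
of variables (`T1`, helper991), so that the language expresses path systems with tables (`T6`,
helper596), and the bound on directed networks in rounds for path systems, the theorem of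
`MP_994c82_lc.NLNegations` (helper534), applies, since formulas are networks (`T5`, helper226;
parameters: `T7`, helper158).

Proof of (A): 2-SAT and implications with single premises are reachability problems (`T2` helper121,
`T3` helper227, `T4` helper99, `H630SD` helpers 541 220 459 403).
-/

open scoped Classical
open Finset

namespace Pool.Agent.Results.MP_7713c5_lc.DepthDichotomy

open H630SD H630DP

theorem dual_pol {ι : Type} {ar : ι → ℕ} {rel : ∀ i, Set (Fin (ar i) → Bool)} {r : ℕ}
    (f : (Fin r → Bool) → Bool) (h : Pol (t3_dual rel) f) :
    Pol rel (fun x => !f fun s => !x s) := by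
  intro i t ht
  have h1 := h i (fun s j => !t s j) (fun s => by
    show (fun j => !(!t s j)) ∈ rel i
    simpa using ht s)
  exact h1

/-- **The depth dichotomy.** -/
theorem result :
    -- (A) easy finite languages: depth `C * log ^ 2`
    (∀ (ι : Type) [Fintype ι] (ar : ι → ℕ) (rel : ∀ i, Set (Fin (ar i) → Bool)), NEasy rel →
      ∃ C : ℕ, ∀ n : ℕ, MD (bits ar (Fin n)) (C * (Nat.log 2 (n + 1) + 1) ^ 2)
        (fun F => ¬ Sat rel F)) ∧
    -- (B) all other languages: depth larger than `N ^ c`, even with few NOT gates
    (∀ a c : ℝ, 0 ≤ a → a < 1 → 0 < c → c < (1 - a) / 52 →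
      ∃ N₀ : ℕ, ∀ N : ℕ, N₀ ≤ N → ∀ (ι : Type) (ar : ι → ℕ)
        (rel : ∀ i, Set (Fin (ar i) → Bool)), ¬ NEasy rel →
        ∀ (d : ℕ) (T : RT (bits ar (Fin N)) d), (∀ F, T.eval F ↔ ¬ Sat rel F) →
          (T.cost : ℝ) ≤ (N : ℝ) ^ a → (N : ℝ) ^ c < d) := by
  refine ⟨?_, ?_⟩
  · intro ι _ ar rel hE
    rcases hE with h | h | h | h | h
    · exact depth_const false h
    · exact depth_const true h
    · exact depth_maj h
    · exact depth_s10 h
    · exact depth_s00 (fun rel' h' => depth_s10 h') h
  · intro a c ha0 ha hc0 hc
    obtain ⟨N₁, h1⟩ := xor_low a c ha0 ha hc0 hc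
    obtain ⟨N₂, h2⟩ := horn_low a c ha0 ha hc0 (hc.trans (by
      have : 0 < 1 - a := by linarith
      exact div_lt_div_of_pos_left this (by norm_num) (by norm_num)))
    refine ⟨max N₁ N₂, fun N hN ι ar rel hE d T hT hcost => ?_⟩
    by_cases hEasy : Easy rel
    · rcases hEasy with h | h | h | h | h
      · exact absurd (Or.inl h) hE
      · exact absurd (Or.inr (Or.inl h)) hE
      · refine h2 N (le_trans (le_max_right _ _) hN) ι ar rel (fun f hf => ?_) d T hT hcost
        exact conj_of_pol h (fun h' => hE (Or.inl h')) (fun h' => hE (Or.inr (Or.inl h')))
          (fun h' => hE (Or.inr (Or.inr (Or.inr (Or.inl h'))))) f hf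
      · refine h2 N (le_trans (le_max_right _ _) hN) ι ar (t3_dual rel) (fun f hf => ?_) d T
          (fun F => by rw [t3_dual_sat]; exact hT F) hcost
        refine conj_of_pol (t3_dual_pol h) (fun h' => ?_) (fun h' => ?_) (fun h' => ?_) f hf
        · exact hE (Or.inr (Or.inl (dual_pol _ h')))
        · exact hE (Or.inl (dual_pol _ h'))
        · refine hE (Or.inr (Or.inr (Or.inr (Or.inr ?_))))
          have h3 := dual_pol _ h'
          have e : (fun x : Fin 3 → Bool => !(!x 0 && (!x 1 || !x 2))) =
              fun x => x 0 || (x 1 && x 2) := by
            funext x
            cases x 0 <;> cases x 1 <;> cases x 2 <;> rfl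
          rw [e] at h3
          exact h3
      · exact absurd (Or.inr (Or.inr (Or.inl h))) hE
    · exact h1 N (le_trans (le_max_left _ _) hN) ι ar rel hEasy d T hT hcost

end Pool.Agent.Results.MP_7713c5_lc.DepthDichotomy
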