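import Pool.Agent.H560R2.Dep4

/-!
Depth and negations.

There are monotone functions of `N` variables with monotone circuits of linear size that have no
circuits of small depth with fewer than `log₂ N - O(log log N)` NOT gates.

The function is the OR of many disjoint copies of a lifted pebbling function of a pyramid: the
copy is true if a marked value of the sink vertex is derivable by the rules that are present. By a
rank argument (matrices over the rationals) a copy has no monotone trees of small depth. A chain of
rejected inputs is built copy by copy: if in some copy no rejected input changes the input bits of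
the non-monotone gates, then these gates can be replaced by constants, and the OR of the frozen
circuit and of the bits that were `0` is a monotone tree of small depth for that copy.
-/

namespace Pool.Agent.Results.MP_7713c5_lc.DepthNegations

/-- Let `68 (D+1)^8 ≤ N < 2^(D+1)` and `M = ⌊N / (68 (D+1)^8)⌋`. There is a Boolean function `f` of
`N` variables with the following properties.

(1) It has a monotone circuit with `g ≤ 3N` gates: gate `i` is the AND (if `b i = true`) or the OR
(if `b i = false`) of `l i` and `r i`, each a variable or an earlier gate.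

(2) Consider any circuit for `f` with gates `i : Fin s`, in which gate `i` has `w i` inputs,
namely `a i j`, each a variable or an earlier gate, and computes the function `op i` of its input
bits `inp x i`; the gates outside `T` are monotone with at most two inputs and the gates in `T`
are arbitrary (for instance NOT gates); `dep` bounds the depth of the gates and is at most `D`.
Then `∏_{i ∈ T} (w i + 1) > M`; moreover, if `∑_{i ∈ T} w i < 2^(D+1)`, then there is a chain
`x 0 ≤ ... ≤ x M` of rejected inputs such that at every step some input bit of some gate in `T`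
changes. -/
theorem result (D N : ℕ) (hN : 68 * (D + 1) ^ 8 ≤ N) (hD : N < 2 ^ (D + 1)) :
    ∃ f : (Fin N → Bool) → Bool,
      (∃ (g : ℕ) (b : Fin g → Bool) (l r : Fin g → Fin N ⊕ Fin g)
        (v : (Fin N → Bool) → Fin g → Bool) (o : Fin g), g ≤ 3 * N ∧
        (∀ i k, l i = Sum.inr k ∨ r i = Sum.inr k → k < i) ∧
        (∀ x i, v x i = if b i = true
          then (Sum.elim x (v x) (l i) && Sum.elim x (v x) (r i))
          else (Sum.elim x (v x) (l i) || Sum.elim x (v x) (r i))) ∧
        ∀ x, v x o = f x) ∧
      ∀ (s : ℕ) (T : Finset (Fin s)) (w : Fin s → ℕ) (a : ∀ i, Fin (w i) → Fin N ⊕ Fin s)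
        (dep : Fin s → ℕ) (_ : ∀ i, 1 ≤ dep i ∧ dep i ≤ D)
        (_ : ∀ i j k, a i j = Sum.inr k → k < i ∧ dep k < dep i)
        (op : ∀ i, (Fin (w i) → Bool) → Bool) (_ : ∀ i ∉ T, w i ≤ 2 ∧ Monotone (op i))
        (val : (Fin N → Bool) → Fin s → Bool) (inp : (Fin N → Bool) → ∀ i, Fin (w i) → Bool)
        (_ : ∀ x i j, inp x i j = Sum.elim x (val x) (a i j))
        (_ : ∀ x i, val x i = op i (inp x i)) (o : Fin s) (_ : ∀ x, val x o = f x),
        N / (68 * (D + 1) ^ 8) < ∏ i ∈ T, (w i + 1) ∧
        (∑ i ∈ T, w i < 2 ^ (D + 1) → ∃ x : ℕ → Fin N → Bool,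
          (∀ i < N / (68 * (D + 1) ^ 8), x i ≤ x (i + 1) ∧
            ∃ t ∈ T, inp (x i) t ≠ inp (x (i + 1)) t) ∧
          ∀ i ≤ N / (68 * (D + 1) ^ 8), f (x i) = false) := by
  classical
  have hpos : 0 < 68 * (D + 1) ^ 8 := by positivity
  set M := N / (68 * (D + 1) ^ 8) with hM
  have hM1 : 1 ≤ M := by
    rw [hM, Nat.le_div_iff_mul_le hpos]
    omega
  have hMN : M * (68 * (D + 1) ^ 8) ≤ N := Nat.div_mul_le_self _ _
  obtain ⟨q, hq⟩ : ∃ q, q = 4 * (D + 1) ^ 2 := ⟨_, rfl⟩
  have hq0 : 0 < q := by rw [hq]; positivity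
  have hcard : Fintype.card (Fin M × Pool.Agent.H560R2.PVar (Pool.Agent.H560R2.ppred D) q) ≤
      Fintype.card (Fin N) := by
    rw [Fintype.card_prod, Fintype.card_fin, Fintype.card_fin, hq]
    exact (Nat.mul_le_mul_left M (Pool.Agent.H560R2.card_pvar D)).trans hMN
  obtain ⟨e⟩ := Function.Embedding.nonempty_of_card_le hcard
  refine ⟨Pool.Agent.H560R2.orPeb (Pool.Agent.H560R2.ppred D) (Pool.Agent.H560R2.psink D) q M e,
    ?_, ?_⟩
  · obtain ⟨L, hL, hlen, hav⟩ := Pool.Agent.H560R2.orPeb_prog (t := Pool.Agent.H560R2.psink D) hq0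
      (Pool.Agent.H560R2.ppred_card D) (fun v => v.1.val) (fun v u hu => by
        unfold Pool.Agent.H560R2.ppred at hu
        rw [Finset.mem_filter] at hu
        have := hu.2.1
        show u.1.val < v.1.val
        omega) M hM1 e
    have hlen2 : L.length + 1 ≤ 3 * N := by
      have h1 : Fintype.card (Pool.Agent.H560R2.PV D) = (D + 1) ^ 2 := by
        rw [Fintype.card_prod, Fintype.card_fin, sq]
      rw [h1] at hlen
      have h2 : 3 * (D + 1) ^ 2 * q ^ 3 + 2 * q = 192 * (D + 1) ^ 8 + 8 * (D + 1) ^ 2 := by
        rw [hq]; ring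
      rw [h2] at hlen
      have h3 : (D + 1) ^ 2 ≤ (D + 1) ^ 8 := Nat.pow_le_pow_right (by omega) (by norm_num)
      have h4 : M * (192 * (D + 1) ^ 8 + 8 * (D + 1) ^ 2) ≤ M * (200 * (D + 1) ^ 8) :=
        Nat.mul_le_mul_left M (by omega)
      have h5 : 3 * (M * (68 * (D + 1) ^ 8)) = M * (200 * (D + 1) ^ 8) + M * (4 * (D + 1) ^ 8) := by
        ring
      have h6 : 1 ≤ M * (4 * (D + 1) ^ 8) := Nat.mul_pos hM1 (by positivity)
      omega
    rcases hav with ⟨p, hp⟩ | hmem
    · -- a variable: one gate
      refine ⟨1, fun _ => true, fun _ => Sum.inl p, fun _ => Sum.inl p, fun x _ => x p, 0,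
        by omega, ?_, ?_, ?_⟩
      · intro i k hk
        rcases hk with hk | hk <;> exact absurd hk (by simp)
      · intro x i
        simp
      · intro x
        rw [hp]
    · obtain ⟨b, l, r, v, o, h1, h2, h3⟩ := Pool.Agent.H560R2.prog_circuit hL _ hmem
      exact ⟨L.length, b, l, r, v, o, by omega, h1, h2, h3⟩
  · intro s T w a dep hdep htop op hmon val inp hinp hval o ho
    have hinp' : ∀ x i, inp x i = fun j => Sum.elim x (val x) (a i j) :=
      fun x i => funext (fun j => hinp x i j)
    have hval' : ∀ x i, val x i = op i (fun j => Sum.elim x (val x) (a i j)) :=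
      fun x i => by rw [hval, hinp']
    have hchain : ∑ i ∈ T, w i < 2 ^ (D + 1) → ∃ x : ℕ → Fin N → Bool,
        (∀ i < M, x i ≤ x (i + 1) ∧ ∃ t ∈ T, ∃ j,
          Sum.elim (x i) (val (x i)) (a t j) ≠ Sum.elim (x (i + 1)) (val (x (i + 1))) (a t j)) ∧
          ∀ i ≤ M, val (x i) o = false :=
      Pool.Agent.H560R2.dep_chain D M q hq e e.injective (fun i => (hdep i).1)
        (fun i j k h => (htop i j k h).2) hmon (fun i => (hdep i).2) val hval' o ho
    constructor
    · by_cases hT : ∑ i ∈ T, w i < 2 ^ (D + 1)
      · obtain ⟨x, hx, -⟩ := hchain hT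
        obtain ⟨C, -, -, -, c4, c5⟩ := Pool.Agent.H560R2.to_circuit_iff T w a op
          (fun i j k h => (htop i j k h).1) hmon (fun p (x : Fin N → Bool) => x p) val hval' s le_rfl
        have hTf : T.filter (fun i => i.val < s) = T :=
          Finset.filter_true_of_mem (fun i _ => i.isLt)
        rw [hTf] at c4
        rw [← c4]
        refine C.chain_le M (fun i => x i) (fun i hi => (hx i hi).1) (fun i hi h => ?_)
        obtain ⟨-, t, ht, j, hj⟩ := hx i hi
        exact hj ((c5 _ _).mp h t ht t.isLt j)
      · have h1 : ∀ S : Finset (Fin s), 1 + ∑ i ∈ S, w i ≤ ∏ i ∈ S, (w i + 1) := by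
          intro S
          induction S using Finset.induction_on with
          | empty => simp
          | insert i S hi ih =>
            rw [Finset.sum_insert hi, Finset.prod_insert hi]
            nlinarith [Nat.zero_le (w i), Nat.zero_le (∑ i ∈ S, w i)]
        have h2 := h1 T
        have h3 : M ≤ N := Nat.div_le_self _ _
        omega
    · intro hT
      obtain ⟨x, hx, hx2⟩ := hchain hT
      refine ⟨x, fun i hi => ⟨(hx i hi).1, ?_⟩, fun i hi => by rw [← ho]; exact hx2 i hi⟩
      obtain ⟨-, t, ht, j, hj⟩ := hx i hi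
      refine ⟨t, ht, fun h => hj ?_⟩
      rw [← hinp, ← hinp, h]

end Pool.Agent.Results.MP_7713c5_lc.DepthNegations
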