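import Pool.Agent.H870R2.LS.SymF
import Pool.Agent.H870R2.LS.Poly

set_option autoImplicit false

/-! # Local symmetry: formulas (and circuits of fan-out at most four) versus circuits

A circuit reads a path system on the finite set `V` (which elements are axioms, which rules
`a, b → c` are present) and decides whether the target `t` is derivable (a P-complete problem).
Its gates compute arbitrary functions of the numbers of walks of all lengths in networks whose arcs
are controlled by literals and by other gates; its depth is not restricted.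

(1) If every gate feeds at most four gates (in a formula: at most one), and the circuit is
symmetric on each of `r` disjoint blocks of five elements, then it has at least `5 ^ k` gates and
nodes as soon as `8000 k ^ 4 (log_5 r + 2) ^ 2 ≤ r`; for circuits of counting gates
`3000 k ^ 3 (log_5 r + 2) ^ 2 ≤ r` is enough. (2) Every circuit of fan-out at most `f` whose
output gate feeds less than `f` gates can be made symmetric on `r` blocks, keeping fan-out at most
`f`, at the cost of a factor `60 ^ r` in size. (3) A circuit of polynomial size with counting gates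
(and large fan-out) that is symmetric under all permutations of the elements fixing `t` decides
the problem. -/

namespace Pool.Agent.Results.MP_7713c5_lc.LocalFanOut

open Pool.Agent.H870R2.LS

theorem result :
    (∀ (V Q : Type) [Fintype V] [Fintype Q] (C : Ckt (Inp V) Q) (t : V), C.FanOut 4 →
      (∀ x, C.val x C.out = true ↔ Der x t) →
      ∀ (r : ℕ) (blk : Fin r → (Fin 5 ↪ V)),
        (Pairwise fun i j => Disjoint (Set.range (blk i)) (Set.range (blk j))) →
        (∀ i, t ∉ Set.range (blk i)) → (∀ i, C.SymOn (blk i)) →
        ∀ k : ℕ, 1 ≤ k →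
          (8000 * k ^ 4 * (Nat.log 5 r + 2) ^ 2 ≤ r ∨
            (∀ g N N', N 1 = N' 1 → C.F g N = C.F g N') ∧
              3000 * k ^ 3 * (Nat.log 5 r + 2) ^ 2 ≤ r) →
          5 ^ k ≤ Fintype.card Q) ∧
    (∀ (V Q : Type) [Fintype V] [Fintype Q] (C : Ckt (Inp V) Q) (t : V),
      (∀ x, C.val x C.out = true ↔ Der x t) →
      ∀ f : ℕ, C.FanOut f → C.feeds C.out < f →
      ∀ (r : ℕ) (blk : Fin r → (Fin 5 ↪ V)),
        (Pairwise fun i j => Disjoint (Set.range (blk i)) (Set.range (blk j))) →
        (∀ i, t ∉ Set.range (blk i)) →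
        ∃ (Q' : Type) (_ : Fintype Q') (C' : Ckt (Inp V) Q'),
          (∀ x, C'.val x C'.out = true ↔ Der x t) ∧ C'.FanOut f ∧ (∀ i, C'.SymOn (blk i)) ∧
          Fintype.card Q' = 60 ^ r * Fintype.card Q + 1) ∧
    (∀ (V : Type) [Fintype V] (t : V),
      ∃ (Q : Type) (_ : Fintype Q) (C : Ckt (Inp V) Q),
        (∀ x, C.val x C.out = true ↔ Der x t) ∧
        (∀ g N N', N 1 = N' 1 → C.F g N = C.F g N') ∧
        (∀ p : Equiv.Perm V, p t = t → ∃ φ, C.IsAut (inpPerm p) φ) ∧
        Fintype.card Q ≤ (Fintype.card V + 1) ^ 4 ∧ C.rank C.out ≤ 2 * Fintype.card V) :=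
  ⟨fun _ _ _ _ C t hf hC r blk hd ht hs k hk hr => hr.elim
      (fun hr => lowerF C hf t hC r blk hd ht hs k hk hr)
      (fun hr => lowerF_count C hf t hr.1 hC r blk hd ht hs k hk hr.2),
    fun _ _ _ _ C t hC f hf hout r blk hd ht => symmetrizeF C t hC f hf hout r blk hd ht,
    fun _ _ t => poly t⟩

end Pool.Agent.Results.MP_7713c5_lc.LocalFanOut
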