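import Mathlib
import Pool.Agent.H540R2.Circ
import Pool.Agent.H540R2.Lift.Defs
import Pool.Agent.H540R2.Lift.NegDefs
import Pool.Agent.H540R2.Lift.MParam

/-!
# Depth against the number of NOT gates

Some monotone circuits with `S` gates have equivalent monotone circuits of depth polylogarithmic
in `S`, but every equivalent circuit of quasi-polynomial size with `t` NOT gates and depth `d`
satisfies `2 ^ t * d ≥ S / polylog S`. The function is an OR of disjoint copies, of many sizes, of
a lifted pointer problem.
-/

set_option autoImplicit false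

namespace Pool.Agent.Results.MP_7713c5_lc.NegationTradeoff

open Pool.Agent.H540R2

/-- There is an absolute constant `c` such that for all `q, S ≥ 2` there is a monotone circuit `C`
with at most `S` gates which has an equivalent monotone circuit of depth at most `(q log₂ S) ^ c`,
while every equivalent circuit with at most `2 ^ q` gates satisfies
`2 ^ (number of NOT gates) * depth ≥ S / (q log₂ S) ^ c`. -/
theorem result : ∃ c : ℕ, ∀ q S : ℕ, 2 ≤ q → 2 ≤ S → ∃ (n : ℕ) (C : Circuit n),
    C.Monotone ∧ C.size ≤ S ∧
    (∃ C₁ : Circuit n, C₁.Monotone ∧ C.Equiv C₁ ∧ C₁.depth ≤ (q * Nat.log 2 S) ^ c) ∧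
    ∀ C₂ : Circuit n, C.Equiv C₂ → C₂.size ≤ 2 ^ q →
      S ≤ (q * Nat.log 2 S) ^ c * (2 ^ C₂.nots * C₂.depth) :=
  Pool.Agent.H540R2.Lift.neg_tradeoff

end Pool.Agent.Results.MP_7713c5_lc.NegationTradeoff
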